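import Mathlib

/-!
# The moduli spaces of planar graphs with a given number of bounded faces are disconnected

Finite graphs, degenerate graph embeddings in the plane `ℂ = ℝ²`, the space `N` of their images and
its subspace `Nn n` of the classes with exactly `n` bounded faces. For every `n ≥ 1` a bouquet of
`n` nested circles with a common point and the same bouquet together with a point inside the smallest
circle lie in different components of `Nn n`, while the configuration space `UConf n` is connected.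
So the two spaces are not homotopy equivalent.
-/

set_option autoImplicit false

namespace Pool.Agent.Results.MP_c05aef_gt.DisconnectedModuli

open Set Topology unitInterval Relation

/-- a finite graph (loops and multiple edges allowed): vertices `Fin nv`, edges `Fin ne`, the edge
`e` runs from `src e` to `tgt e` (every finite graph is isomorphic to one of these) -/
structure Gr where
  nv : ℕ
  ne : ℕ
  src : Fin ne → Fin nv
  tgt : Fin ne → Fin nv

/-- continuous maps from the graph (a 1-dimensional CW complex, its edges parametrised by `[0,1]`) to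
the plane: the images of the vertices and the paths along the edges; the topology is the
compact-open topology (that of uniform convergence), i.e. the subspace topology of the product of the
planes of the vertices and of the spaces `C([0,1], ℂ)` of the edges -/
def GMap (G : Gr) : Type :=
  {φ : (Fin G.nv → ℂ) × (Fin G.ne → C(I, ℂ)) //
    ∀ e, φ.2 e 0 = φ.1 (G.src e) ∧ φ.2 e 1 = φ.1 (G.tgt e)}

noncomputable instance (G : Gr) : TopologicalSpace (GMap G) := instTopologicalSpaceSubtype

/-- the map is constant on the edge `e` -/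
def IsConst {G : Gr} (φ : GMap G) (e : Fin G.ne) : Prop := ∀ t : I, φ.1.2 e t = φ.1.2 e 0

/-- the restriction to the edge `e` (an arc, or a circle if `e` is a loop) is injective, that is, an
embedding -/
def IsEmb {G : Gr} (φ : GMap G) (e : Fin G.ne) : Prop :=
  ∀ s t : I, φ.1.2 e s = φ.1.2 e t →
    s = t ∨ (G.src e = G.tgt e ∧ ((s = 0 ∧ t = 1) ∨ (s = 1 ∧ t = 0)))

/-- the equivalence relation on the vertices generated by the endpoints of the constant edges in the
set `S` of edges -/
def VRel {G : Gr} (φ : GMap G) (S : Set (Fin G.ne)) (v w : Fin G.nv) : Prop :=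
  EqvGen (fun v w => ∃ e ∈ S, IsConst φ e ∧ G.src e = v ∧ G.tgt e = w) v w

/-- degenerate graph embeddings; the last condition says that no cycle (of length one, two, ...) has
all its edges constant: the endpoints of a constant edge are not connected by the other constant
edges -/
structure IsDeg {G : Gr} (φ : GMap G) : Prop where
  edge : ∀ e, IsEmb φ e ∨ IsConst φ e
  vert : ∀ v w, φ.1.1 v = φ.1.1 w ↔ VRel φ univ v w
  avoid : ∀ e, ¬ IsConst φ e → ∀ t : I, 0 < t → t < 1 → ∀ v, φ.1.2 e t ≠ φ.1.1 v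
  disj : ∀ e f, e ≠ f → ¬ IsConst φ e → ¬ IsConst φ f → ∀ s t : I, 0 < s → s < 1 → 0 < t → t < 1 →
    φ.1.2 e s ≠ φ.1.2 f t
  acyclic : ∀ e, IsConst φ e → ¬ VRel φ {f | f ≠ e} (G.src e) (G.tgt e)

/-- the space of the degenerate graph embeddings of `G` -/
def DegEmb (G : Gr) : Type := {φ : GMap G // IsDeg φ}

noncomputable instance (G : Gr) : TopologicalSpace (DegEmb G) := instTopologicalSpaceSubtype

/-- the image of a map -/
def im {G : Gr} (φ : GMap G) : Set ℂ := range φ.1.1 ∪ ⋃ e, range (φ.1.2 e)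

/-- two degenerate graph embeddings are identified when their images coincide -/
def sameImage : Setoid (Σ G : Gr, DegEmb G) where
  r x y := im x.2.1 = im y.2.1
  iseqv := ⟨fun _ => rfl, fun h => h.symm, fun h h' => h.trans h'⟩

/-- the space of the images of the degenerate graph embeddings, with the quotient topology of the
disjoint union over all finite graphs -/
def N : Type := Quotient sameImage

noncomputable instance : TopologicalSpace N := instTopologicalSpaceQuotient

/-- the image of a class -/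
def N.im (x : N) : Set ℂ := Quotient.lift (fun y : Σ G : Gr, DegEmb G =>
  DisconnectedModuli.im y.2.1) (fun _ _ h => h) x

/-- the bounded faces: the bounded connected components of the complement -/
def boundedFaces (K : Set ℂ) : Set (Set ℂ) :=
  {U | (∃ x ∈ Kᶜ, U = connectedComponentIn Kᶜ x) ∧ Bornology.IsBounded U}

/-- the subspace of the classes with exactly `n` bounded faces -/
def Nn (n : ℕ) : Type := {x : N // (boundedFaces x.im).encard = n}

noncomputable instance (n : ℕ) : TopologicalSpace (Nn n) := instTopologicalSpaceSubtype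

/-- ordered configurations of `n` distinct points -/
def Conf (n : ℕ) : Type := {x : Fin n → ℂ // Function.Injective x}

noncomputable instance (n : ℕ) : TopologicalSpace (Conf n) := instTopologicalSpaceSubtype

/-- two ordered configurations differ by a permutation -/
def permSetoid (n : ℕ) : Setoid (Conf n) where
  r x y := ∃ p : Equiv.Perm (Fin n), ∀ i, y.1 i = x.1 (p i)
  iseqv := ⟨fun _ => ⟨1, fun _ => rfl⟩,
    fun {x y} ⟨p, h⟩ => ⟨p.symm, fun i => by rw [h, Equiv.apply_symm_apply]⟩,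
    fun {x y z} ⟨p, h⟩ ⟨q, h'⟩ => ⟨q.trans p, fun i => by rw [h', h]; rfl⟩⟩

/-- the unordered configuration space -/
def UConf (n : ℕ) : Type := Quotient (permSetoid n)

noncomputable instance (n : ℕ) : TopologicalSpace (UConf n) := instTopologicalSpaceQuotient

/-! ### images of the embeddings of one graph -/

/-- the relation of being joined by an edge, and the connected graphs -/
def Linked (G : Gr) (v w : Fin G.nv) : Prop := EqvGen (fun v w => ∃ e, G.src e = v ∧ G.tgt e = w) v w

lemma vrel_linked {G : Gr} {φ : GMap G} {S : Set (Fin G.ne)} {v w : Fin G.nv} (h : VRel φ S v w) :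
    Linked G v w := by
  unfold VRel at h
  unfold Linked
  induction h with
  | rel x y h =>
    obtain ⟨e, -, -, h1, h2⟩ := h
    exact EqvGen.rel _ _ ⟨e, h1, h2⟩
  | refl x => exact EqvGen.refl _
  | symm x y _ ih => exact EqvGen.symm _ _ ih
  | trans x y z _ _ ih1 ih2 => exact EqvGen.trans _ _ _ ih1 ih2

lemma edge_src {G : Gr} (φ : GMap G) (e : Fin G.ne) : φ.1.1 (G.src e) ∈ range (φ.1.2 e) :=
  ⟨0, (φ.2 e).1⟩

lemma edge_tgt {G : Gr} (φ : GMap G) (e : Fin G.ne) : φ.1.1 (G.tgt e) ∈ range (φ.1.2 e) :=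
  ⟨1, (φ.2 e).2⟩

lemma preconn_range {G : Gr} (φ : GMap G) (e : Fin G.ne) : IsPreconnected (range (φ.1.2 e)) :=
  isPreconnected_range (φ.1.2 e).continuous

lemma rtg_symm {α : Type} {r : α → α → Prop} (hr : ∀ a b, r a b → r b a) {a b : α}
    (h : ReflTransGen r a b) : ReflTransGen r b a := by
  induction h with
  | refl => exact ReflTransGen.refl
  | tail _ hbc ih => exact ReflTransGen.head (hr _ _ hbc) ih

/-- the image of a connected graph is connected -/
lemma preconn_of_linked {G : Gr} (φ : GMap G) (h : ∀ v w, Linked G v w) : IsPreconnected (im φ) := by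
  have key : im φ = ⋃ v : Fin G.nv, (⋃ o : Option {e : Fin G.ne // G.src e = v},
      (match o with
        | none => {φ.1.1 v}
        | some e => range (φ.1.2 e.1) : Set ℂ)) := by
    ext z
    simp only [im, mem_union, mem_range, mem_iUnion]
    constructor
    · rintro (⟨v, rfl⟩ | ⟨e, t, rfl⟩)
      · exact ⟨v, none, rfl⟩
      · exact ⟨G.src e, some ⟨e, rfl⟩, ⟨t, rfl⟩⟩
    · rintro ⟨v, o, ho⟩
      rcases o with _ | ⟨e, he⟩
      · left
        exact ⟨v, (mem_singleton_iff.1 ho).symm⟩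
      · right
        obtain ⟨t, ht⟩ := ho
        exact ⟨e, t, ht⟩
  rw [key]
  refine IsPreconnected.iUnion_of_reflTransGen (fun v => ?_) (fun v w => ?_)
  · refine isPreconnected_iUnion ⟨φ.1.1 v, ?_⟩ ?_
    · rw [mem_iInter]
      intro o
      rcases o with _ | ⟨e, he⟩
      · exact mem_singleton _
      · subst he
        exact edge_src φ e
    · intro o
      rcases o with _ | ⟨e, he⟩
      · exact isPreconnected_singleton
      · exact preconn_range φ e
  · have hmem : ∀ v, φ.1.1 v ∈ (⋃ o : Option {e : Fin G.ne // G.src e = v},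
      (match o with
        | none => {φ.1.1 v}
        | some e => range (φ.1.2 e.1) : Set ℂ)) := fun v => mem_iUnion.2 ⟨none, mem_singleton _⟩
    have h1 := h v w
    unfold Linked at h1
    induction h1 with
    | rel x y hxy =>
      obtain ⟨e, rfl, rfl⟩ := hxy
      exact ReflTransGen.single ⟨φ.1.1 (G.tgt e), mem_iUnion.2 ⟨some ⟨e, rfl⟩, edge_tgt φ e⟩,
        hmem _⟩
    | refl x => exact ReflTransGen.refl
    | symm x y _ ih => exact rtg_symm (fun a b ⟨z, hz1, hz2⟩ => ⟨z, hz2, hz1⟩) ih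
    | trans x y z _ _ ih1 ih2 => exact ih1.trans ih2

/-- a point of an edge is an endpoint or an interior point of an edge which is not constant -/
lemma edge_point {G : Gr} (φ : GMap G) (e : Fin G.ne) (t : I) :
    φ.1.2 e t = φ.1.1 (G.src e) ∨ φ.1.2 e t = φ.1.1 (G.tgt e) ∨
      (¬ IsConst φ e ∧ 0 < t ∧ t < 1) := by
  by_cases hc : IsConst φ e
  · left
    rw [hc t, (φ.2 e).1]
  · by_cases h0 : t = 0
    · left
      rw [h0, (φ.2 e).1]
    · by_cases h1 : t = 1
      · right; left
        rw [h1, (φ.2 e).2]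
      · right; right
        refine ⟨hc, ?_, ?_⟩
        · exact unitInterval.pos_iff_ne_zero.2 h0
        · exact unitInterval.lt_one_iff_ne_one.2 h1

/-- a graph with a connected image is connected -/
lemma linked_of_preconn {G : Gr} (φ : GMap G) (hφ : IsDeg φ) (h : IsPreconnected (im φ)) :
    ∀ v w, Linked G v w := by
  intro v w
  by_contra hvw
  set A : Set (Fin G.nv) := {u | Linked G v u} with hA
  have hst : ∀ e, G.src e ∈ A ↔ G.tgt e ∈ A := fun e =>
    ⟨fun h => EqvGen.trans _ _ _ h (EqvGen.rel _ _ ⟨e, rfl, rfl⟩),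
      fun h => EqvGen.trans _ _ _ h (EqvGen.symm _ _ (EqvGen.rel _ _ ⟨e, rfl, rfl⟩))⟩
  have hcl : ∀ S : Set (Fin G.nv), IsClosed (φ.1.1 '' S ∪ ⋃ e : {e : Fin G.ne // G.src e ∈ S},
      range (φ.1.2 e.1)) := by
    intro S
    refine IsClosed.union (S.toFinite.image _).isClosed ?_
    exact isClosed_iUnion_of_finite fun e => (isCompact_range (φ.1.2 e.1).continuous).isClosed
  have hpt : ∀ S : Set (Fin G.nv), (∀ e, G.src e ∈ S ↔ G.tgt e ∈ S) → ∀ z,
      z ∈ (φ.1.1 '' S ∪ ⋃ e : {e : Fin G.ne // G.src e ∈ S}, range (φ.1.2 e.1)) →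
      (∃ u ∈ S, z = φ.1.1 u) ∨ ∃ e t, G.src e ∈ S ∧ ¬ IsConst φ e ∧ 0 < t ∧ t < 1 ∧
        z = φ.1.2 e t := by
    rintro S hS z (⟨u, hu, rfl⟩ | hz)
    · exact Or.inl ⟨u, hu, rfl⟩
    · obtain ⟨⟨e, he⟩, t, rfl⟩ := mem_iUnion.1 hz
      rcases edge_point φ e t with h1 | h1 | ⟨h1, h2, h3⟩
      · exact Or.inl ⟨_, he, h1⟩
      · exact Or.inl ⟨_, (hS e).1 he, h1⟩
      · exact Or.inr ⟨e, t, he, h1, h2, h3, rfl⟩
  have hst' : ∀ e, G.src e ∈ Aᶜ ↔ G.tgt e ∈ Aᶜ := fun e => not_congr (hst e)
  have hcov : im φ ⊆ (φ.1.1 '' A ∪ ⋃ e : {e : Fin G.ne // G.src e ∈ A}, range (φ.1.2 e.1)) ∪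
      (φ.1.1 '' Aᶜ ∪ ⋃ e : {e : Fin G.ne // G.src e ∈ Aᶜ}, range (φ.1.2 e.1)) := by
    rintro z (⟨u, rfl⟩ | hz)
    · by_cases hu : u ∈ A
      · exact Or.inl (Or.inl ⟨u, hu, rfl⟩)
      · exact Or.inr (Or.inl ⟨u, hu, rfl⟩)
    · obtain ⟨e, he⟩ := mem_iUnion.1 hz
      by_cases hu : G.src e ∈ A
      · exact Or.inl (Or.inr (mem_iUnion.2 ⟨⟨e, hu⟩, he⟩))
      · exact Or.inr (Or.inr (mem_iUnion.2 ⟨⟨e, hu⟩, he⟩))
  obtain ⟨z, -, hz1, hz2⟩ := isPreconnected_closed_iff.1 h _ _ (hcl A) (hcl Aᶜ) hcov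
    ⟨φ.1.1 v, Or.inl ⟨v, rfl⟩, Or.inl ⟨v, EqvGen.refl _, rfl⟩⟩
    ⟨φ.1.1 w, Or.inl ⟨w, rfl⟩, Or.inl ⟨w, hvw, rfl⟩⟩
  rcases hpt A hst z hz1 with ⟨u, hu, rfl⟩ | ⟨e, s, he, hce, hs0, hs1, rfl⟩
  · rcases hpt Aᶜ hst' _ hz2 with ⟨u', hu', h1⟩ | ⟨f, t, hf, hcf, ht0, ht1, h1⟩
    · exact hu' (EqvGen.trans _ _ _ hu (vrel_linked ((hφ.vert u u').1 h1)))
    · exact hφ.avoid f hcf t ht0 ht1 u h1.symm
  · rcases hpt Aᶜ hst' _ hz2 with ⟨u', hu', h1⟩ | ⟨f, t, hf, hcf, ht0, ht1, h1⟩
    · exact hφ.avoid e hce s hs0 hs1 u' h1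
    · refine hφ.disj e f ?_ hce hcf s t hs0 hs1 ht0 ht1 h1
      rintro rfl
      exact hf he

/-- the classes with a connected image form an open and closed set -/
lemma isClopen_conn : IsClopen {x : N | IsPreconnected x.im} := by
  have key : ∀ (P : Prop → Prop), IsOpen {x : N | P (IsPreconnected x.im)} := by
    intro P
    have hq : IsQuotientMap (Quotient.mk sameImage) := isQuotientMap_quotient_mk'
    have h1 : IsOpen ((Quotient.mk sameImage) ⁻¹' {x : N | P (IsPreconnected x.im)}) := by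
      rw [isOpen_sigma_iff]
      intro G
      by_cases hG : ∀ v w, Linked G v w
      · by_cases hP : P True
        · convert isOpen_univ
          ext φ
          have : IsPreconnected (im φ.1) = True := eq_true (preconn_of_linked φ.1 hG)
          simp only [mem_preimage, mem_univ, iff_true]
          show P (IsPreconnected (im φ.1))
          rw [this]
          exact hP
        · convert isOpen_empty
          ext φ
          have : IsPreconnected (im φ.1) = True := eq_true (preconn_of_linked φ.1 hG)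
          simp only [mem_preimage, mem_empty_iff_false, iff_false]
          show ¬ P (IsPreconnected (im φ.1))
          rw [this]
          exact hP
      · by_cases hP : P False
        · convert isOpen_univ
          ext φ
          have : IsPreconnected (im φ.1) = False :=
            eq_false (fun h => hG (linked_of_preconn φ.1 φ.2 h))
          simp only [mem_preimage, mem_univ, iff_true]
          show P (IsPreconnected (im φ.1))
          rw [this]
          exact hP
        · convert isOpen_empty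
          ext φ
          have : IsPreconnected (im φ.1) = False :=
            eq_false (fun h => hG (linked_of_preconn φ.1 φ.2 h))
          simp only [mem_preimage, mem_empty_iff_false, iff_false]
          show ¬ P (IsPreconnected (im φ.1))
          rw [this]
          exact hP
    exact hq.isOpen_preimage.1 h1
  exact ⟨⟨key Not⟩, key id⟩

/-! ### faces -/

lemma comp_eq {K A B : Set ℂ} (hK : Kᶜ = A ∪ B) (hA : IsOpen A) (hB : IsOpen B) (hd : Disjoint A B)
    (hAc : IsPreconnected A) {x : ℂ} (hx : x ∈ A) : connectedComponentIn Kᶜ x = A := by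
  have hxK : x ∈ Kᶜ := by rw [hK]; exact Or.inl hx
  apply Subset.antisymm
  · refine IsPreconnected.subset_left_of_subset_union hA hB hd ?_ ?_
      isPreconnected_connectedComponentIn
    · rw [← hK]
      exact connectedComponentIn_subset _ _
    · exact ⟨x, mem_connectedComponentIn hxK, hx⟩
  · refine hAc.subset_connectedComponentIn hx ?_
    rw [hK]
    exact subset_union_left

/-- if the complement is the disjoint union of `n` bounded domains and an unbounded one, there are
`n` bounded faces -/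
lemma faces_family {n : ℕ} {K W : Set ℂ} {U : Fin n → Set ℂ} (hK : Kᶜ = (⋃ i, U i) ∪ W)
    (hU : ∀ i, IsOpen (U i)) (hW : IsOpen W) (hd : ∀ i j, i ≠ j → Disjoint (U i) (U j))
    (hdW : ∀ i, Disjoint (U i) W) (hUc : ∀ i, IsPreconnected (U i)) (hWc : IsPreconnected W)
    (hUn : ∀ i, (U i).Nonempty) (hUb : ∀ i, Bornology.IsBounded (U i))
    (hWb : ¬ Bornology.IsBounded W) : (boundedFaces K).encard = n := by
  have hcU : ∀ i, ∀ x ∈ U i, connectedComponentIn Kᶜ x = U i := by
    intro i x hx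
    refine comp_eq (B := (⋃ j : {j // j ≠ i}, U j) ∪ W) ?_ (hU i)
      ((isOpen_iUnion fun j : {j // j ≠ i} => hU j.1).union hW) ?_ (hUc i) hx
    · rw [hK]
      ext z
      simp only [mem_union, mem_iUnion]
      constructor
      · rintro (⟨j, hj⟩ | h)
        · by_cases hji : j = i
          · left
            rw [← hji]
            exact hj
          · right; left
            exact ⟨⟨j, hji⟩, hj⟩
        · right; right
          exact h
      · rintro (h | ⟨⟨j, hji⟩, hj⟩ | h)
        · left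
          exact ⟨i, h⟩
        · left
          exact ⟨j, hj⟩
        · right
          exact h
    · rw [Set.disjoint_left]
      rintro z hz (h | h)
      · obtain ⟨⟨j, hji⟩, hj⟩ := mem_iUnion.1 h
        exact Set.disjoint_left.1 (hd i j (Ne.symm hji)) hz hj
      · exact Set.disjoint_left.1 (hdW i) hz h
  have hcW : ∀ x ∈ W, connectedComponentIn Kᶜ x = W := by
    intro x hx
    refine comp_eq (B := ⋃ j, U j) ?_ hW (isOpen_iUnion hU) ?_ hWc hx
    · rw [hK, union_comm]
    · rw [Set.disjoint_left]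
      intro z hz h
      obtain ⟨j, hj⟩ := mem_iUnion.1 h
      exact Set.disjoint_left.1 (hdW j) hj hz
  have h1 : boundedFaces K = range U := by
    ext V
    constructor
    · rintro ⟨⟨x, hx, rfl⟩, hb⟩
      rw [hK] at hx
      rcases hx with hx | hx
      · obtain ⟨i, hi⟩ := mem_iUnion.1 hx
        exact ⟨i, (hcU i x hi).symm⟩
      · rw [hcW x hx] at hb
        exact absurd hb hWb
    · rintro ⟨i, rfl⟩
      obtain ⟨x, hx⟩ := hUn i
      refine ⟨⟨x, ?_, (hcU i x hx).symm⟩, hUb i⟩
      rw [hK]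
      exact Or.inl (mem_iUnion.2 ⟨i, hx⟩)
  have hinj : Function.Injective U := by
    intro i j hij
    by_contra hne
    obtain ⟨x, hx⟩ := hUn i
    exact Set.disjoint_left.1 (hd i j hne) hx (hij ▸ hx)
  rw [h1, ← image_univ, hinj.encard_image, encard_univ]
  simp

/-- rings around a point are connected -/
lemma preconn_ring (c : ℂ) (J : Set ℝ) (hJ : IsPreconnected J) (hJ0 : ∀ r ∈ J, 0 < r) :
    IsPreconnected {z : ℂ | ‖z - c‖ ∈ J} := by
  have h1 : 1 < Module.rank ℝ ℂ := by
    rw [Complex.rank_real_complex]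
    norm_num
  have h2 : {z : ℂ | ‖z - c‖ ∈ J} =
      (fun p : ℝ × ℂ => c + p.1 • p.2) '' (J ×ˢ Metric.sphere (0 : ℂ) 1) := by
    ext z
    constructor
    · intro hz
      have h0 : ‖z - c‖ ≠ 0 := (hJ0 _ hz).ne'
      refine ⟨(‖z - c‖, ‖z - c‖⁻¹ • (z - c)), ⟨hz, ?_⟩, ?_⟩
      · rw [mem_sphere_zero_iff_norm, norm_smul, norm_inv, norm_norm, inv_mul_cancel₀ h0]
      · show c + ‖z - c‖ • (‖z - c‖⁻¹ • (z - c)) = z
        rw [smul_smul, mul_inv_cancel₀ h0, one_smul]
        ring
    · rintro ⟨⟨r, u⟩, ⟨hr, hu⟩, rfl⟩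
      rw [mem_sphere_zero_iff_norm] at hu
      show ‖c + r • u - c‖ ∈ J
      rw [add_sub_cancel_left, norm_smul, hu, mul_one, Real.norm_eq_abs, abs_of_pos (hJ0 r hr)]
      exact hr
  rw [h2]
  exact (hJ.prod (isPreconnected_sphere h1 0 1)).image _ (by fun_prop)

lemma open_ring (c : ℂ) {J : Set ℝ} (hJ : IsOpen J) : IsOpen {z : ℂ | ‖z - c‖ ∈ J} :=
  hJ.preimage (by fun_prop)

lemma outer_unbounded (c : ℂ) (r : ℝ) : ¬ Bornology.IsBounded {z : ℂ | ‖z - c‖ ∈ Ioi r} := by
  intro h
  obtain ⟨C, hC⟩ := h.exists_norm_le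
  have h2 : 0 < |C| + |r| + ‖c‖ + 1 := by positivity
  have h1 := hC (c + ((|C| + |r| + ‖c‖ + 1 : ℝ) : ℂ)) (by
    show ‖c + ((|C| + |r| + ‖c‖ + 1 : ℝ) : ℂ) - c‖ ∈ Ioi r
    rw [add_sub_cancel_left, Complex.norm_real, Real.norm_eq_abs, mem_Ioi, abs_of_pos h2]
    have := le_abs_self r
    have := abs_nonneg C
    have := norm_nonneg c
    linarith)
  have h3 : ‖((|C| + |r| + ‖c‖ + 1 : ℝ) : ℂ)‖ ≤ ‖c + ((|C| + |r| + ‖c‖ + 1 : ℝ) : ℂ)‖ + ‖c‖ := by
    have := norm_sub_le (c + ((|C| + |r| + ‖c‖ + 1 : ℝ) : ℂ)) c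
    rwa [add_sub_cancel_left] at this
  rw [Complex.norm_real, Real.norm_eq_abs, abs_of_pos h2] at h3
  have := le_abs_self C
  have := abs_nonneg r
  linarith

/-! ### nested circles through the origin -/

/-- `1 / (2 (j + 1))` -/
noncomputable def lev (j : ℕ) : ℝ := 1 / (2 * (j + 1))

lemma lev_pos (j : ℕ) : 0 < lev j := by
  unfold lev
  positivity

lemma lev_anti {i j : ℕ} (h : i ≤ j) : lev j ≤ lev i := by
  unfold lev
  have : (i : ℝ) ≤ j := by exact_mod_cast h
  apply one_div_le_one_div_of_le <;> [positivity; linarith]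

/-- the circle of radius `j + 1` around `j + 1` -/
def crc (j : ℕ) : Set ℂ := {z | ‖z - ((j : ℂ) + 1)‖ = j + 1}

lemma key_sq (z : ℂ) (r : ℝ) : ‖z - r‖ ^ 2 = r ^ 2 + (Complex.normSq z - 2 * r * z.re) := by
  rw [← Complex.normSq_eq_norm_sq, Complex.normSq_apply, Complex.normSq_apply]
  simp only [Complex.sub_re, Complex.sub_im, Complex.ofReal_re, Complex.ofReal_im]
  ring

lemma key_lev (z : ℂ) (hz : z ≠ 0) (j : ℕ) :
    (‖z - ((j : ℂ) + 1)‖ < j + 1 ↔ lev j < (z⁻¹).re) ∧
    (‖z - ((j : ℂ) + 1)‖ = j + 1 ↔ lev j = (z⁻¹).re) := by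
  have hc : ((j : ℂ) + 1) = (((j : ℝ) + 1 : ℝ) : ℂ) := by push_cast; rfl
  have hr : (0 : ℝ) < (j : ℝ) + 1 := by positivity
  have hn : 0 < Complex.normSq z := Complex.normSq_pos.2 hz
  have h1 := key_sq z ((j : ℝ) + 1)
  have h2 : (z⁻¹).re = z.re / Complex.normSq z := Complex.inv_re z
  rw [hc, h2]
  unfold lev
  constructor
  · rw [← pow_lt_pow_iff_left₀ (norm_nonneg _) hr.le (two_ne_zero), h1,
      div_lt_div_iff₀ (by positivity) hn]
    constructor <;> intro h <;> nlinarith
  · rw [← pow_left_inj₀ (norm_nonneg _) hr.le (two_ne_zero), h1,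
      div_eq_div_iff (by positivity) hn.ne']
    constructor <;> intro h <;> nlinarith

/-- the bounded domains -/
def dom (i : ℕ) : Set ℂ := {z | (z⁻¹).re ∈ Ioi (lev i) ∩ ⋂ j : Fin i, Iio (lev j)}

lemma ne_zero_of_dom {i : ℕ} {z : ℂ} (hz : z ∈ dom i) : z ≠ 0 := by
  rintro rfl
  have h := hz.1
  rw [inv_zero, Complex.zero_re, mem_Ioi] at h
  exact lt_asymm h (lev_pos i)

lemma dom_open (i : ℕ) : IsOpen (dom i) := by
  have h1 : IsOpen (Ioi (lev i) ∩ ⋂ j : Fin i, Iio (lev j)) :=
    isOpen_Ioi.inter (isOpen_iInter_of_finite fun _ => isOpen_Iio)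
  have h2 : ContinuousOn (fun z : ℂ => (z⁻¹).re) {0}ᶜ :=
    Complex.continuous_re.comp_continuousOn (continuousOn_inv₀)
  have h3 := h2.isOpen_inter_preimage isOpen_compl_singleton h1
  convert h3 using 1
  ext z
  exact ⟨fun h => ⟨ne_zero_of_dom h, h⟩, fun h => h.2⟩

lemma dom_preconn (i : ℕ) : IsPreconnected (dom i) := by
  have h1 : Convex ℝ (Ioi (lev i) ∩ ⋂ j : Fin i, Iio (lev j)) :=
    (convex_Ioi _).inter (convex_iInter fun _ => convex_Iio _)
  have h2 : IsPreconnected {w : ℂ | w.re ∈ Ioi (lev i) ∩ ⋂ j : Fin i, Iio (lev j)} :=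
    (h1.linear_preimage Complex.reLm).isPreconnected
  have h3 : dom i = (fun w : ℂ => w⁻¹) '' {w : ℂ | w.re ∈ Ioi (lev i) ∩ ⋂ j : Fin i, Iio (lev j)} := by
    ext z
    constructor
    · intro hz
      exact ⟨z⁻¹, hz, inv_inv z⟩
    · rintro ⟨w, hw, rfl⟩
      show ((w⁻¹)⁻¹).re ∈ Ioi (lev i) ∩ ⋂ j : Fin i, Iio (lev j)
      rw [inv_inv]
      exact hw
  rw [h3]
  refine h2.image _ (continuousOn_inv₀.mono ?_)
  rintro w hw rfl
  exact lt_asymm hw.1 (lev_pos i)

lemma dom_nonempty (i : ℕ) : (((2 * i + 1 : ℝ) : ℂ)) ∈ dom i := by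
  have h1 : ((((2 * i + 1 : ℝ) : ℂ))⁻¹).re = 1 / (2 * i + 1) := by
    rw [← Complex.ofReal_inv, Complex.ofReal_re, one_div]
  show ((((2 * i + 1 : ℝ) : ℂ))⁻¹).re ∈ Ioi (lev i) ∩ ⋂ j : Fin i, Iio (lev j)
  rw [h1]
  constructor
  · rw [mem_Ioi]
    unfold lev
    apply one_div_lt_one_div_of_lt <;> [positivity; linarith]
  · rw [mem_iInter]
    intro j
    rw [mem_Iio]
    unfold lev
    have : ((j : ℕ) : ℝ) + 1 ≤ i := by exact_mod_cast j.2
    apply one_div_lt_one_div_of_lt <;> [positivity; linarith]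

lemma dom_bdd (i : ℕ) : Bornology.IsBounded (dom i) := by
  refine (Metric.isBounded_ball (x := ((i : ℂ) + 1)) (r := (i : ℝ) + 1)).subset ?_
  intro z hz
  rw [mem_ball_iff_norm]
  exact (key_lev z (ne_zero_of_dom hz) i).1.2 hz.1

/-- the union of the first `n` circles -/
def bouquet (n : ℕ) : Set ℂ := ⋃ j : Fin n, crc j

lemma zero_mem_crc (j : ℕ) : (0 : ℂ) ∈ crc j := by
  show ‖(0 : ℂ) - ((j : ℂ) + 1)‖ = j + 1
  rw [zero_sub, norm_neg]
  have hc : ((j : ℂ) + 1) = (((j : ℝ) + 1 : ℝ) : ℂ) := by push_cast; rfl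
  rw [hc, Complex.norm_real, Real.norm_eq_abs, abs_of_pos (by positivity)]

/-- the unbounded domain of the bouquet of `n + 1` circles -/
def outer (n : ℕ) : Set ℂ := {z | ‖z - ((n : ℂ) + 1)‖ ∈ Ioi ((n : ℝ) + 1)}

lemma compl_bouquet (n : ℕ) : (bouquet (n + 1))ᶜ = (⋃ i : Fin (n + 1), dom i) ∪ outer n := by
  ext z
  by_cases hz : z = 0
  · subst hz
    constructor
    · intro h
      exact absurd (show (0 : ℂ) ∈ bouquet (n + 1) from mem_iUnion.2 ⟨0, zero_mem_crc _⟩) h
    · rintro (h | h)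
      · obtain ⟨i, hi⟩ := mem_iUnion.1 h
        exact absurd rfl (ne_zero_of_dom hi)
      · have h1 := zero_mem_crc n
        exact absurd h1 (ne_of_gt h)
  have hk := fun j => key_lev z hz j
  constructor
  · intro h
    have hne : ∀ j : ℕ, j < n + 1 → lev j ≠ (z⁻¹).re := by
      intro j hj h1
      exact h (mem_iUnion.2 ⟨⟨j, hj⟩, (hk j).2.2 h1⟩)
    by_cases h2 : lev n < (z⁻¹).re
    · left
      have hex : ∃ i, lev i < (z⁻¹).re := ⟨n, h2⟩
      classical
      have hfn : Nat.find hex ≤ n := Nat.find_min' hex h2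
      refine mem_iUnion.2 ⟨⟨Nat.find hex, by omega⟩, Nat.find_spec hex, ?_⟩
      rw [mem_iInter]
      intro j
      have h3 := Nat.find_min hex j.2
      exact lt_of_le_of_ne (not_lt.1 h3) (Ne.symm (hne j (lt_of_lt_of_le j.2 (by
        show Nat.find hex ≤ n + 1
        omega))))
    · right
      show (n : ℝ) + 1 < ‖z - ((n : ℂ) + 1)‖
      have h3 : ¬ ‖z - ((n : ℂ) + 1)‖ < n + 1 := fun h' => h2 ((hk n).1.1 h')
      have h4 : ‖z - ((n : ℂ) + 1)‖ ≠ n + 1 := fun h' => hne n (by omega) ((hk n).2.1 h')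
      exact lt_of_le_of_ne (not_lt.1 h3) (Ne.symm h4)
  · rintro (h | h) hb
    · obtain ⟨i, hi⟩ := mem_iUnion.1 h
      obtain ⟨j, hj⟩ := mem_iUnion.1 hb
      have h1 : lev j = (z⁻¹).re := (hk j).2.1 hj
      have h2 : lev i < (z⁻¹).re := hi.1
      rcases lt_or_ge (j : ℕ) (i : ℕ) with h3 | h3
      · have h4 := mem_iInter.1 hi.2 ⟨j, h3⟩
        rw [mem_Iio, ← h1] at h4
        exact lt_irrefl _ h4
      · have := lev_anti h3
        linarith
    · obtain ⟨j, hj⟩ := mem_iUnion.1 hb
      have h1 : lev j = (z⁻¹).re := (hk j).2.1 hj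
      have h2 : ¬ lev n < (z⁻¹).re := fun h' => lt_asymm ((hk n).1.2 h') h
      have h3 : lev n ≠ (z⁻¹).re := fun h' => (ne_of_gt h) ((hk n).2.2 h')
      have h4 : lev n ≤ lev j := lev_anti (by omega)
      exact h2 (lt_of_le_of_ne (by rw [← h1]; exact h4) h3)

lemma dom_disj {i j : ℕ} (h : i < j) : Disjoint (dom i) (dom j) := by
  rw [Set.disjoint_left]
  intro z h1 h2
  have h3 : (z⁻¹).re < lev i := mem_iInter.1 h2.2 ⟨i, h⟩
  have h4 : lev i < (z⁻¹).re := h1.1
  exact lt_asymm h4 h3

lemma dom_disj' {i j : ℕ} (h : i ≠ j) : Disjoint (dom i) (dom j) := by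
  rcases lt_or_gt_of_ne h with h | h
  · exact dom_disj h
  · exact (dom_disj h).symm

lemma dom_outer {i n : ℕ} (h : i ≤ n) : Disjoint (dom i) (outer n) := by
  rw [Set.disjoint_left]
  intro z h1 h2
  have h3 : lev n < (z⁻¹).re := lt_of_le_of_lt (lev_anti h) h1.1
  exact lt_asymm ((key_lev z (ne_zero_of_dom h1) n).1.2 h3) h2

lemma outer_preconn (n : ℕ) : IsPreconnected (outer n) :=
  preconn_ring _ _ isPreconnected_Ioi fun r hr => lt_trans (by positivity) hr

lemma faces_bouquet (n : ℕ) : (boundedFaces (bouquet (n + 1))).encard = (n + 1 : ℕ) :=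
  faces_family (compl_bouquet n) (fun i => dom_open i) (open_ring _ isOpen_Ioi)
    (fun i j h => dom_disj' (fun h' => h (Fin.ext h'))) (fun i => dom_outer (by omega))
    (fun i => dom_preconn i) (outer_preconn n) (fun i => ⟨_, dom_nonempty i⟩) (fun i => dom_bdd i)
    (outer_unbounded _ _)

lemma dom_zero : dom 0 \ {1} = {z : ℂ | ‖z - 1‖ ∈ Ioo (0 : ℝ) 1} := by
  ext z
  constructor
  · rintro ⟨h1, h2⟩
    have h3 := (key_lev z (ne_zero_of_dom h1) 0).1.2 h1.1
    rw [Nat.cast_zero, Nat.cast_zero, zero_add, zero_add] at h3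
    exact ⟨norm_pos_iff.2 (sub_ne_zero.2 h2), h3⟩
  · rintro ⟨h1, h2⟩
    have hz : z ≠ 0 := by
      rintro rfl
      simp at h2
    refine ⟨⟨?_, ?_⟩, sub_ne_zero.1 (norm_pos_iff.1 h1)⟩
    · refine (key_lev z hz 0).1.1 ?_
      rw [Nat.cast_zero, Nat.cast_zero, zero_add, zero_add]
      exact h2
    · rw [mem_iInter]
      exact fun j => j.elim0

lemma faces_bouquet_point (n : ℕ) : (boundedFaces (bouquet (n + 1) ∪ {1})).encard = (n + 1 : ℕ) := by
  have h1 : (1 : ℂ) ∈ dom 0 := by
    have := dom_nonempty 0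
    simpa using this
  refine faces_family (U := fun i : Fin (n + 1) => dom i \ {1}) (W := outer n) ?_
    (fun i => (dom_open i).sdiff isClosed_singleton) (open_ring _ isOpen_Ioi)
    (fun i j h => (dom_disj' (fun h' => h (Fin.ext h'))).mono sdiff_subset sdiff_subset)
    (fun i => (dom_outer (by omega)).mono_left sdiff_subset) (fun i => ?_) (outer_preconn n)
    (fun i => ?_) (fun i => (dom_bdd i).subset sdiff_subset) (outer_unbounded _ _)
  · rw [compl_union, compl_bouquet, union_inter_distrib_right, iUnion_inter]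
    congr 1
    refine inter_eq_left.2 fun z hz => ?_
    rintro rfl
    exact Set.disjoint_left.1 (dom_outer (Nat.zero_le n)) h1 hz
  · rcases Nat.eq_zero_or_pos (i : ℕ) with h | h
    · show IsPreconnected (dom i \ {1})
      rw [h, dom_zero]
      exact preconn_ring _ _ isPreconnected_Ioo fun r hr => hr.1
    · have h2 : dom i \ {1} = dom i :=
        sdiff_singleton_eq_self fun h' => Set.disjoint_left.1 (dom_disj h) h1 h'
      show IsPreconnected (dom i \ {1})
      rw [h2]
      exact dom_preconn i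
  · rcases Nat.eq_zero_or_pos (i : ℕ) with h | h
    · show (dom i \ {1}).Nonempty
      rw [h, dom_zero]
      refine ⟨1 + ((1 / 2 : ℝ) : ℂ), ?_⟩
      show ‖1 + ((1 / 2 : ℝ) : ℂ) - 1‖ ∈ Ioo (0 : ℝ) 1
      rw [add_sub_cancel_left, Complex.norm_real]
      norm_num
    · have h2 : dom i \ {1} = dom i :=
        sdiff_singleton_eq_self fun h' => Set.disjoint_left.1 (dom_disj h) h1 h'
      show (dom i \ {1}).Nonempty
      rw [h2]
      exact ⟨_, dom_nonempty i⟩

/-! ### the two classes -/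

/-- the parametrised unit circle -/
noncomputable def circ : C(I, ℂ) :=
  ⟨fun t => Complex.exp (2 * Real.pi * (t : ℝ) * Complex.I), by fun_prop⟩

lemma circ_eq {s t : I} (h : circ s = circ t) : s = t ∨ (s = 0 ∧ t = 1) ∨ (s = 1 ∧ t = 0) := by
  have h1 : Complex.exp (2 * Real.pi * (s : ℝ) * Complex.I) =
      Complex.exp (2 * Real.pi * (t : ℝ) * Complex.I) := h
  obtain ⟨n, hn⟩ := Complex.exp_eq_exp_iff_exists_int.1 h1
  have h2 : ((s : ℝ) : ℂ) = (t : ℝ) + n := by
    have h3 : (2 * (Real.pi : ℂ) * Complex.I) ≠ 0 := Complex.two_pi_I_ne_zero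
    apply mul_left_cancel₀ h3
    linear_combination hn
  have h3 : (s : ℝ) = t + n := by exact_mod_cast h2
  have hs := s.2
  have ht := t.2
  have hn1 : (n : ℝ) ≤ 1 := by linarith [hs.2, ht.1]
  have hn2 : (-1 : ℝ) ≤ n := by linarith [hs.1, ht.2]
  have hn1' : n ≤ 1 := by exact_mod_cast hn1
  have hn2' : -1 ≤ n := by exact_mod_cast hn2
  have hcase : n = -1 ∨ n = 0 ∨ n = 1 := by omega
  rcases hcase with rfl | rfl | rfl
  · right; left
    push_cast at h3
    constructor
    · apply Subtype.ext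
      show (s : ℝ) = 0
      linarith [hs.1, ht.2]
    · apply Subtype.ext
      show (t : ℝ) = 1
      linarith [hs.1, ht.2]
  · left
    apply Subtype.ext
    simpa using h3
  · right; right
    push_cast at h3
    constructor
    · apply Subtype.ext
      show (s : ℝ) = 1
      linarith [hs.2, ht.1]
    · apply Subtype.ext
      show (t : ℝ) = 0
      linarith [hs.2, ht.1]

lemma circ_zero : circ 0 = 1 := by
  show Complex.exp (2 * Real.pi * ((0 : I) : ℝ) * Complex.I) = 1
  simp

lemma circ_one : circ 1 = 1 := by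
  show Complex.exp (2 * Real.pi * ((1 : I) : ℝ) * Complex.I) = 1
  simp [Complex.exp_two_pi_mul_I]

lemma circ_norm (t : I) : ‖circ t‖ = 1 := by
  show ‖Complex.exp (2 * Real.pi * (t : ℝ) * Complex.I)‖ = 1
  have : (2 * Real.pi * (t : ℝ) * Complex.I : ℂ) = ((2 * Real.pi * t : ℝ) : ℂ) * Complex.I := by
    push_cast
    ring
  rw [this, Complex.norm_exp_ofReal_mul_I]

lemma range_circ : range circ = Metric.sphere (0 : ℂ) 1 := by
  apply Subset.antisymm
  · rintro _ ⟨t, rfl⟩
    rw [mem_sphere_zero_iff_norm]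
    exact circ_norm t
  · intro z hz
    rw [mem_sphere_zero_iff_norm] at hz
    have hz' : z = Complex.exp (Complex.arg z * Complex.I) := by
      have := Complex.norm_mul_exp_arg_mul_I z
      rw [hz] at this
      simpa using this.symm
    have ha := Complex.arg_le_pi z
    have hb := Complex.neg_pi_lt_arg z
    have hpi := Real.pi_pos
    by_cases h0 : 0 ≤ Complex.arg z
    · refine ⟨⟨Complex.arg z / (2 * Real.pi), ?_, ?_⟩, ?_⟩
      · positivity
      · rw [div_le_one (by positivity)]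
        linarith
      · show Complex.exp (2 * Real.pi * ((Complex.arg z / (2 * Real.pi) : ℝ) : ℂ) * Complex.I) = z
        conv_rhs => rw [hz']
        congr 1
        push_cast
        field_simp
    · push Not at h0
      refine ⟨⟨Complex.arg z / (2 * Real.pi) + 1, ?_, ?_⟩, ?_⟩
      · have : -(1 : ℝ) ≤ Complex.arg z / (2 * Real.pi) := by
          rw [le_div_iff₀ (by positivity)]
          linarith
        linarith
      · have : Complex.arg z / (2 * Real.pi) ≤ 0 := div_nonpos_of_nonpos_of_nonneg h0.le (by positivity)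
        linarith
      · show Complex.exp (2 * Real.pi * ((Complex.arg z / (2 * Real.pi) + 1 : ℝ) : ℂ) * Complex.I) = z
        conv_rhs => rw [hz']
        rw [Complex.exp_eq_exp_iff_exists_int]
        refine ⟨1, ?_⟩
        push_cast
        field_simp


/-- one vertex with `n` loops, together with `k` isolated vertices -/
def loopGr (n k : ℕ) : Gr where
  nv := k + 1
  ne := n
  src _ := 0
  tgt _ := 0

/-- the `j`-th circle, from `0` to `0` -/
noncomputable def arc (j : ℕ) : C(I, ℂ) := ⟨fun t => ((j : ℂ) + 1) * (1 - circ t), by fun_prop⟩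

lemma arc_apply (j : ℕ) (t : I) : arc j t = ((j : ℂ) + 1) * (1 - circ t) := rfl

lemma cast_ne (j : ℕ) : ((j : ℂ) + 1) ≠ 0 := Nat.cast_add_one_ne_zero j

lemma arc_eq {j : ℕ} {s t : I} (h : arc j s = arc j t) :
    s = t ∨ (s = 0 ∧ t = 1) ∨ (s = 1 ∧ t = 0) := by
  rw [arc_apply, arc_apply] at h
  have h1 := mul_left_cancel₀ (cast_ne j) h
  exact circ_eq (sub_right_inj.1 h1)

lemma arc_zero (j : ℕ) : arc j 0 = 0 := by rw [arc_apply, circ_zero, sub_self, mul_zero]

lemma arc_one (j : ℕ) : arc j 1 = 0 := by rw [arc_apply, circ_one, sub_self, mul_zero]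

lemma range_arc (j : ℕ) : range (arc j) = crc j := by
  have hc : ‖((j : ℂ) + 1)‖ = (j : ℝ) + 1 := by
    have hc : ((j : ℂ) + 1) = (((j : ℝ) + 1 : ℝ) : ℂ) := by push_cast; rfl
    rw [hc, Complex.norm_real, Real.norm_eq_abs, abs_of_pos (by positivity)]
  ext z
  constructor
  · rintro ⟨t, rfl⟩
    show ‖arc j t - ((j : ℂ) + 1)‖ = j + 1
    have : arc j t - ((j : ℂ) + 1) = -(((j : ℂ) + 1) * circ t) := by
      rw [arc_apply]
      ring
    rw [this, norm_neg, norm_mul, circ_norm, mul_one, hc]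
  · intro hz
    have hz' : ‖z - ((j : ℂ) + 1)‖ = j + 1 := hz
    have h1 : 1 - z / ((j : ℂ) + 1) ∈ Metric.sphere (0 : ℂ) 1 := by
      rw [mem_sphere_zero_iff_norm]
      have : 1 - z / ((j : ℂ) + 1) = -((z - ((j : ℂ) + 1)) / ((j : ℂ) + 1)) := by
        rw [sub_div, div_self (cast_ne j)]
        ring
      rw [this, norm_neg, norm_div, hz', hc]
      exact div_self (by positivity)
    rw [← range_circ] at h1
    obtain ⟨t, ht⟩ := h1
    refine ⟨t, ?_⟩
    rw [arc_apply, ht, sub_sub_cancel, mul_div_cancel₀ _ (cast_ne j)]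

/-- the bouquet, and the isolated vertices at the points `p` -/
noncomputable def loopMap (n k : ℕ) (p : Fin k → ℂ) : GMap (loopGr n k) :=
  ⟨(Fin.cons 0 p, fun j => arc j), fun j => ⟨arc_zero j, arc_one j⟩⟩

lemma loop_not_const (n k : ℕ) (p : Fin k → ℂ) (e : Fin (loopGr n k).ne) :
    ¬ IsConst (loopMap n k p) e := by
  intro h
  have h1 : arc e ⟨1 / 2, by norm_num, by norm_num⟩ = arc e 0 := h ⟨1 / 2, by norm_num, by norm_num⟩
  rcases arc_eq h1 with h | ⟨h, -⟩ | ⟨h, -⟩
  · have := congrArg Subtype.val h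
    norm_num at this
  · have := congrArg Subtype.val h
    norm_num at this
  · have := congrArg Subtype.val h
    norm_num at this

lemma vrel_eq {n k : ℕ} {p : Fin k → ℂ} {S : Set (Fin (loopGr n k).ne)} {v w : Fin (loopGr n k).nv}
    (h : VRel (loopMap n k p) S v w) : v = w := by
  unfold VRel at h
  induction h with
  | rel x y h =>
    obtain ⟨e, -, h1, -⟩ := h
    exact absurd h1 (loop_not_const n k p e)
  | refl x => rfl
  | symm x y _ ih => exact ih.symm
  | trans x y z _ _ ih1 ih2 => exact ih1.trans ih2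

lemma arc_ne_zero {j : ℕ} {t : I} (h0 : 0 < t) (h1 : t < 1) : arc j t ≠ 0 := by
  intro h
  rw [← arc_zero j] at h
  rcases arc_eq h with h | ⟨h, -⟩ | ⟨h, -⟩
  · exact h0.ne' h
  · exact h0.ne' h
  · exact h1.ne h

lemma arc_mem (j : ℕ) (t : I) : arc j t ∈ crc j := by
  rw [← range_arc]
  exact ⟨t, rfl⟩

lemma loop_deg (n k : ℕ) (p : Fin k → ℂ) (hp : Function.Injective p)
    (hp1 : ∀ i, p i ∉ bouquet n) (hp0 : ∀ i, p i ≠ 0) : IsDeg (loopMap n k p) where
  edge e := Or.inl fun s t h => (arc_eq h).imp id fun h' => ⟨rfl, h'⟩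
  vert v w := by
    constructor
    · intro h
      have hinj : Function.Injective (Fin.cons 0 p : Fin (k + 1) → ℂ) := by
        rw [Fin.cons_injective_iff]
        refine ⟨?_, hp⟩
        rintro ⟨i, hi⟩
        exact hp0 i hi
      have : v = w := hinj h
      rw [this]
      exact EqvGen.refl _
    · intro h
      rw [vrel_eq h]
  avoid e _ t ht0 ht1 v h := by
    have h' : arc e t = (Fin.cons 0 p : Fin (k + 1) → ℂ) v := h
    revert h'
    refine Fin.cases ?_ (fun i => ?_) v
    · intro h'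
      rw [Fin.cons_zero] at h'
      exact arc_ne_zero ht0 ht1 h'
    · intro h'
      rw [Fin.cons_succ] at h'
      exact hp1 i (mem_iUnion.2 ⟨e, h' ▸ arc_mem e t⟩)
  disj e f hef _ _ s t hs0 hs1 ht0 ht1 h := by
    have h' : arc e s = arc f t := h
    have hz := arc_ne_zero (j := (e : ℕ)) hs0 hs1
    have h1 := (key_lev _ hz e).2.1 (arc_mem e s)
    have h2 := (key_lev _ hz f).2.1 (h' ▸ arc_mem f t)
    have h3 : lev e = lev f := h1.trans h2.symm
    unfold lev at h3
    have h4 : (2 * (((e : ℕ) : ℝ) + 1)) = 2 * (((f : ℕ) : ℝ) + 1) := by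
      have h5 := congrArg (fun x : ℝ => 1 / x) h3
      simpa using h5
    have h5 : ((e : ℕ) : ℝ) = ((f : ℕ) : ℝ) := by linarith
    exact hef (Fin.ext (by exact_mod_cast h5))
  acyclic e he := absurd he (loop_not_const n k p e)

lemma im_loop (n k : ℕ) (p : Fin k → ℂ) :
    im (loopMap (n + 1) k p) = bouquet (n + 1) ∪ range p := by
  have h1 : im (loopMap (n + 1) k p) = range (Fin.cons 0 p : Fin (k + 1) → ℂ) ∪
      ⋃ j : Fin (n + 1), range (arc j) := rfl
  rw [h1]
  ext z
  simp only [mem_union, mem_range, mem_iUnion]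
  constructor
  · rintro (⟨v, rfl⟩ | ⟨j, t, rfl⟩)
    · refine Fin.cases ?_ (fun i => ?_) v
      · left
        rw [Fin.cons_zero]
        exact mem_iUnion.2 ⟨0, zero_mem_crc _⟩
      · right
        exact ⟨i, by rw [Fin.cons_succ]⟩
    · left
      exact mem_iUnion.2 ⟨j, arc_mem j t⟩
  · rintro (h | ⟨i, rfl⟩)
    · obtain ⟨j, hj⟩ := mem_iUnion.1 h
      rw [← range_arc] at hj
      exact Or.inr ⟨j, hj⟩
    · exact Or.inl ⟨i.succ, by rw [Fin.cons_succ]⟩

lemma one_not_mem (n : ℕ) : (1 : ℂ) ∉ bouquet n := by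
  intro h
  obtain ⟨j, hj⟩ := mem_iUnion.1 h
  have h1 : lev j = ((1 : ℂ)⁻¹).re := (key_lev 1 one_ne_zero j).2.1 hj
  rw [inv_one, Complex.one_re] at h1
  have h2 := lev_anti (Nat.zero_le (j : ℕ))
  rw [h1] at h2
  unfold lev at h2
  norm_num at h2

/-- the bouquet of `n + 1` circles -/
noncomputable def c1 (n : ℕ) : N := Quotient.mk sameImage ⟨loopGr (n + 1) 0,
  loopMap (n + 1) 0 Fin.elim0, loop_deg _ 0 _ (fun i => i.elim0) (fun i => i.elim0)
    (fun i => i.elim0)⟩

/-- the bouquet of `n + 1` circles and the point `1` -/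
noncomputable def c2 (n : ℕ) : N := Quotient.mk sameImage ⟨loopGr (n + 1) 1,
  loopMap (n + 1) 1 (fun _ => 1), loop_deg _ 1 _ (fun i j _ => Subsingleton.elim i j)
    (fun _ => one_not_mem _) (fun _ => one_ne_zero)⟩

lemma im_c1 (n : ℕ) : (c1 n).im = bouquet (n + 1) := by
  have : (c1 n).im = im (loopMap (n + 1) 0 Fin.elim0) := rfl
  rw [this, im_loop, range_eq_empty, union_empty]

lemma im_c2 (n : ℕ) : (c2 n).im = bouquet (n + 1) ∪ {1} := by
  have : (c2 n).im = im (loopMap (n + 1) 1 (fun _ => 1)) := rfl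
  rw [this, im_loop, range_const]

lemma conn_c1 (n : ℕ) : IsPreconnected (c1 n).im := by
  rw [im_c1]
  refine isPreconnected_iUnion ⟨0, mem_iInter.2 fun j => zero_mem_crc _⟩ fun j => ?_
  rw [← range_arc]
  exact isPreconnected_range (arc j).continuous

lemma not_conn_c2 (n : ℕ) : ¬ IsPreconnected (c2 n).im := by
  rw [im_c2]
  intro h
  have hcl : IsClosed (bouquet (n + 1)) := isClosed_iUnion_of_finite fun j => by
    rw [← range_arc]
    exact (isCompact_range (arc j).continuous).isClosed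
  obtain ⟨z, -, hz1, hz2⟩ := isPreconnected_closed_iff.1 h (bouquet (n + 1)) {1}
    hcl isClosed_singleton subset_rfl
    ⟨0, Or.inl (mem_iUnion.2 ⟨0, zero_mem_crc _⟩), mem_iUnion.2 ⟨0, zero_mem_crc _⟩⟩
    ⟨1, Or.inr rfl, rfl⟩
  rw [mem_singleton_iff.1 hz2] at hz1
  exact one_not_mem _ hz1

/-- the bouquet as a point of `Nn (n + 1)` -/
noncomputable def d1 (n : ℕ) : Nn (n + 1) := ⟨c1 n, by rw [im_c1, faces_bouquet]⟩

/-- the bouquet and a point inside the smallest circle as a point of `Nn (n + 1)` -/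
noncomputable def d2 (n : ℕ) : Nn (n + 1) := ⟨c2 n, by rw [im_c2, faces_bouquet_point]⟩

/-- the classes in `Nn n` with connected image -/
def S (n : ℕ) : Set (Nn n) := {x | IsPreconnected x.1.im}

lemma isClopen_S (n : ℕ) : IsClopen (S n) := isClopen_conn.preimage continuous_subtype_val

/-! ### the configuration space -/

/-- the configuration space is connected: two configurations lie on a complex line on which only
finitely many points are not configurations -/
lemma conf_preconn (n : ℕ) : IsPreconnected (univ : Set (Conf n)) := by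
  refine isPreconnected_of_forall_pair fun x _ y _ => ?_
  set g : ℂ → Fin n → ℂ := fun z i => x.1 i + z * (y.1 i - x.1 i) with hg
  set F : Set ℂ := ⋃ p : {p : Fin n × Fin n // p.1 ≠ p.2}, {z | g z p.1.1 = g z p.1.2} with hF
  have hfin : F.Finite := by
    refine finite_iUnion fun p => Set.Subsingleton.finite ?_
    rintro z hz w hw
    have hz' : x.1 p.1.1 + z * (y.1 p.1.1 - x.1 p.1.1) = x.1 p.1.2 + z * (y.1 p.1.2 - x.1 p.1.2) := hz
    have hw' : x.1 p.1.1 + w * (y.1 p.1.1 - x.1 p.1.1) = x.1 p.1.2 + w * (y.1 p.1.2 - x.1 p.1.2) := hw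
    have h1 : (z - w) * ((y.1 p.1.1 - x.1 p.1.1) - (y.1 p.1.2 - x.1 p.1.2)) = 0 := by
      linear_combination hz' - hw'
    rcases mul_eq_zero.1 h1 with h2 | h2
    · exact sub_eq_zero.1 h2
    · exfalso
      have h3 : x.1 p.1.1 = x.1 p.1.2 := by
        linear_combination hz' - z * h2
      exact p.2 (x.2 h3)
  have h0 : (0 : ℂ) ∈ Fᶜ := by
    intro h
    obtain ⟨p, hp⟩ := mem_iUnion.1 h
    have hp' : x.1 p.1.1 + 0 * (y.1 p.1.1 - x.1 p.1.1) = x.1 p.1.2 + 0 * (y.1 p.1.2 - x.1 p.1.2) := hp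
    exact p.2 (x.2 (by linear_combination hp'))
  have h1 : (1 : ℂ) ∈ Fᶜ := by
    intro h
    obtain ⟨p, hp⟩ := mem_iUnion.1 h
    have hp' : x.1 p.1.1 + 1 * (y.1 p.1.1 - x.1 p.1.1) = x.1 p.1.2 + 1 * (y.1 p.1.2 - x.1 p.1.2) := hp
    exact p.2 (y.2 (by linear_combination hp'))
  have hc : IsPreconnected Fᶜ :=
    (hfin.countable.isPathConnected_compl_of_one_lt_rank (by
      rw [Complex.rank_real_complex]; norm_num)).isConnected.isPreconnected
  have hinj : ∀ z : (Fᶜ : Set ℂ), Function.Injective (g z) := by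
    intro z i j hij
    by_contra hne
    exact z.2 (mem_iUnion.2 ⟨⟨(i, j), hne⟩, hij⟩)
  have : PreconnectedSpace (Fᶜ : Set ℂ) := isPreconnected_iff_preconnectedSpace.1 hc
  have hcont : Continuous fun z : (Fᶜ : Set ℂ) => (⟨g z, hinj z⟩ : Conf n) := by
    refine Continuous.subtype_mk (continuous_pi fun i => ?_) _
    show Continuous fun z : (Fᶜ : Set ℂ) => x.1 i + (z : ℂ) * (y.1 i - x.1 i)
    fun_prop
  refine ⟨range fun z : (Fᶜ : Set ℂ) => (⟨g z, hinj z⟩ : Conf n), subset_univ _, ⟨⟨0, h0⟩, ?_⟩,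
    ⟨⟨1, h1⟩, ?_⟩, isPreconnected_range hcont⟩
  · apply Subtype.ext
    funext i
    show x.1 i + 0 * (y.1 i - x.1 i) = x.1 i
    ring
  · apply Subtype.ext
    funext i
    show x.1 i + 1 * (y.1 i - x.1 i) = y.1 i
    ring

lemma uconf_connected (n : ℕ) : ConnectedSpace (UConf n) := by
  have : PreconnectedSpace (Conf n) := ⟨conf_preconn n⟩
  have hq : Continuous (Quotient.mk (permSetoid n) : Conf n → UConf n) := continuous_quotient_mk'
  have h := isPreconnected_range hq
  have h2 : range (Quotient.mk (permSetoid n) : Conf n → UConf n) = univ :=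
    (Quotient.mk_surjective (s := permSetoid n)).range_eq
  rw [h2] at h
  have hinj : Function.Injective fun i : Fin n => ((i : ℕ) : ℂ) := fun i j h' =>
    Fin.ext (Nat.cast_injective (R := ℂ) h')
  exact { isPreconnected_univ := h, toNonempty := ⟨Quotient.mk _ ⟨_, hinj⟩⟩ }

/-- **Theorem.** For every `n ≥ 1` the space of the classes with exactly `n` bounded faces is not
connected, the unordered configuration space of `n` points of the plane is connected, and the two
are not homotopy equivalent. -/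
theorem result (n : ℕ) (hn : 1 ≤ n) : ¬ ConnectedSpace (Nn n) ∧ ConnectedSpace (UConf n) ∧
    IsEmpty (ContinuousMap.HomotopyEquiv (Nn n) (UConf n)) := by
  obtain ⟨m, rfl⟩ : ∃ m, n = m + 1 := ⟨n - 1, by omega⟩
  have hS1 : d1 m ∈ S (m + 1) := conn_c1 m
  have hS2 : d2 m ∉ S (m + 1) := not_conn_c2 m
  have hSc := isClopen_S (m + 1)
  have huc := uconf_connected (m + 1)
  refine ⟨?_, huc, ⟨fun h => ?_⟩⟩
  · intro hc
    rcases isClopen_iff.1 hSc with h | h
    · rw [h] at hS1
      exact hS1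
    · rw [h] at hS2
      exact hS2 (mem_univ _)
  · obtain ⟨H⟩ := h.left_inv
    have key : ∀ x : Nn (m + 1), (h.invFun.comp h.toFun) x ∈ S (m + 1) ↔ x ∈ S (m + 1) := by
      intro x
      have h1 : Continuous fun t : I => H (t, x) := by fun_prop
      have h2 : IsClopen ((fun t : I => H (t, x)) ⁻¹' S (m + 1)) := hSc.preimage h1
      have h0 : H (0, x) = (h.invFun.comp h.toFun) x := H.apply_zero x
      have h3 : H (1, x) = x := H.apply_one x
      rcases isClopen_iff.1 h2 with h4 | h4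
      · have h5 : (0 : I) ∉ ((fun t : I => H (t, x)) ⁻¹' S (m + 1)) := by
          rw [h4]; exact notMem_empty _
        have h6 : (1 : I) ∉ ((fun t : I => H (t, x)) ⁻¹' S (m + 1)) := by
          rw [h4]; exact notMem_empty _
        rw [mem_preimage, h0] at h5
        rw [mem_preimage, h3] at h6
        exact iff_of_false h5 h6
      · have h5 : (0 : I) ∈ ((fun t : I => H (t, x)) ⁻¹' S (m + 1)) := by rw [h4]; exact mem_univ _
        have h6 : (1 : I) ∈ ((fun t : I => H (t, x)) ⁻¹' S (m + 1)) := by rw [h4]; exact mem_univ _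
        rw [mem_preimage, h0] at h5
        rw [mem_preimage, h3] at h6
        exact iff_of_true h5 h6
    have h7 : IsClopen (h.invFun ⁻¹' S (m + 1)) := hSc.preimage h.invFun.continuous
    have h8 : h.toFun (d1 m) ∈ h.invFun ⁻¹' S (m + 1) := (key (d1 m)).2 hS1
    have h9 : h.toFun (d2 m) ∉ h.invFun ⁻¹' S (m + 1) := fun h' => hS2 ((key (d2 m)).1 h')
    rcases isClopen_iff.1 h7 with h4 | h4
    · rw [h4] at h8
      exact h8
    · rw [h4] at h9
      exact h9 (mem_univ _)

end Pool.Agent.Results.MP_c05aef_gt.DisconnectedModuli
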